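import Pool.Agent.H7.Heil.Tools

/-!
Heilbronn class functions and families of Heisenberg pairs.
-/

open Finset

namespace Pool.Agent.H72.Cover

open Pool.Agent.H7.HB

variable {G : Type} [Group G] {θ : G → ℂ}

theorem mult_congr (h : Heil θ) {A : Type} [CommGroup A] [Fintype A] (φ φ' : A →* G)
    (he : ∀ a, θ (φ a) = θ (φ' a)) (κ : A →* ℂˣ) : mult h φ κ = mult h φ' κ := by
  have h1 := mult_spec h φ κ
  have h2 := mult_spec h φ' κ
  have h3 : (fun a => θ (φ a)) = fun a => θ (φ' a) := funext he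
  rw [h3, h2] at h1
  exact_mod_cast h1.symm

theorem mult_le_conj (h : Heil θ) {A : Type} [CommGroup A] [Fintype A] (φ : A →* G)
    (g : G) (σ : A →* A) (hσ : ∀ a, g * φ a * g⁻¹ = φ (σ a)) (κ : A →* ℂˣ) :
    mult h φ κ ≤ mult h φ (κ.comp σ) := by
  refine (mult_le_comp h φ σ κ).trans (le_of_eq ?_)
  refine mult_congr h _ _ (fun a => ?_) _
  rw [MonoidHom.comp_apply, ← hσ, h.conj]

/-- **Heisenberg pairs**: a central element acting nontrivially costs a factor `2` for each pair. -/
theorem heis_bound [Finite G] (h : Heil θ) {k : ℕ} (a b : Fin k → G) (c : G)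
    (hc : ∀ g, Commute c g) (haa : ∀ i j, Commute (a i) (a j))
    (hab : ∀ i j, i ≠ j → Commute (b i) (a j))
    (habc : ∀ i, b i * a i * (b i)⁻¹ = a i * c) {r : ℕ} (hr : θ 1 = r) (hrk : r < 2 ^ k) :
    θ c = θ 1 := by
  classical
  set s : Set G := insert c (Set.range a) with hs
  have hcomm : ∀ x ∈ s, ∀ y ∈ s, x * y = y * x := by
    rintro x (rfl | ⟨i, rfl⟩) y (rfl | ⟨j, rfl⟩)
    · rfl
    · exact (hc _).eq
    · exact (hc _).eq.symm
    · exact (haa i j).eq
  let A := Subgroup.closure s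
  have _hA : IsMulCommutative A := Subgroup.isMulCommutative_closure hcomm
  let _ : CommGroup A := { (inferInstance : Group A) with mul_comm := fun x y => Subtype.ext (_hA.is_comm.comm x y |> congrArg Subtype.val) }
  let _ : Fintype A := Fintype.ofFinite A
  let φ : A →* G := A.subtype
  -- conjugating elements
  have hg : ∀ S : Finset (Fin k), ∃ g : G, ∀ i, g * a i * g⁻¹ = if i ∈ S then a i * c else a i := by
    intro S
    induction S using Finset.induction_on with
    | empty => exact ⟨1, fun i => by simp⟩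
    | insert j S hj ih =>
      obtain ⟨g, hg⟩ := ih
      refine ⟨b j * g, fun i => ?_⟩
      have e : b j * g * a i * (b j * g)⁻¹ = b j * (g * a i * g⁻¹) * (b j)⁻¹ := by group
      rw [e, hg i]
      by_cases hij : i = j
      · subst hij
        rw [if_neg hj, if_pos (Finset.mem_insert_self _ _), habc]
      · have hc1 : Commute (b j) (a i) := hab j i (Ne.symm hij)
        have hc2 : Commute (b j) (a i * c) := hc1.mul_right (hc _).symm
        by_cases hi : i ∈ S
        · rw [if_pos hi, if_pos (Finset.mem_insert_of_mem hi), hc2.eq, mul_inv_cancel_right]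
        · rw [if_neg hi, if_neg (by simp [hij, hi]), hc1.eq, mul_inv_cancel_right]
  choose g hg using hg
  have hcA : c ∈ A := Subgroup.subset_closure (Set.mem_insert _ _)
  have haA : ∀ i, a i ∈ A := fun i =>
    Subgroup.subset_closure (Set.mem_insert_of_mem _ ⟨i, rfl⟩)
  have hstab : ∀ S, ∀ x ∈ A, g S * x * (g S)⁻¹ ∈ A := by
    intro S x hx
    have h1 : A.map (MulAut.conj (g S)).toMonoidHom ≤ A := by
      rw [MonoidHom.map_closure, Subgroup.closure_le]
      rintro _ ⟨x, (hx | ⟨i, rfl⟩), rfl⟩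
      · change g S * x * (g S)⁻¹ ∈ A
        rw [hx, ← (hc _).eq, mul_inv_cancel_right]
        exact hcA
      · change g S * a i * (g S)⁻¹ ∈ A
        rw [hg]
        split_ifs
        · exact mul_mem (haA i) hcA
        · exact haA i
    exact h1 ⟨x, hx, rfl⟩
  let σ : Finset (Fin k) → (A →* A) := fun S =>
    { toFun := fun x => ⟨g S * x * (g S)⁻¹, hstab S x x.2⟩
      map_one' := by
        apply Subtype.ext
        change g S * 1 * (g S)⁻¹ = 1
        group
      map_mul' := by
        intro x y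
        apply Subtype.ext
        change g S * (x * y) * (g S)⁻¹ = (g S * x * (g S)⁻¹) * (g S * y * (g S)⁻¹)
        group }
  have hσ : ∀ S x, g S * φ x * (g S)⁻¹ = φ (σ S x) := fun S x => rfl
  -- every constituent is trivial on `c`
  have hker : ∀ κ : A →* ℂˣ, mult h φ κ ≠ 0 → κ ⟨c, hcA⟩ = 1 := by
    intro κ hκ
    by_contra hne
    have hinj : Function.Injective (fun S => κ.comp (σ S)) := by
      intro S S' hSS'
      ext i
      have h1 : κ (σ S ⟨a i, haA i⟩) = κ (σ S' ⟨a i, haA i⟩) :=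
        DFunLike.congr_fun hSS' (⟨a i, haA i⟩ : A)
      have h2 : ∀ S, κ (σ S ⟨a i, haA i⟩) = if i ∈ S then κ ⟨a i, haA i⟩ * κ ⟨c, hcA⟩
          else κ ⟨a i, haA i⟩ := by
        intro S
        have h3 : σ S ⟨a i, haA i⟩ = if i ∈ S then (⟨a i, haA i⟩ : A) * ⟨c, hcA⟩
            else ⟨a i, haA i⟩ := by
          apply Subtype.ext
          change g S * a i * (g S)⁻¹ = _
          rw [hg]
          split_ifs <;> rfl
        rw [h3]
        split_ifs
        · rw [map_mul]
        · rfl
      rw [h2, h2] at h1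
      by_cases hi : i ∈ S <;> by_cases hi' : i ∈ S' <;> simp only [hi, hi', if_true, if_false] at h1 ⊢
      · exact absurd (mul_eq_left.1 h1) hne
      · exact absurd (mul_eq_left.1 h1.symm) hne
    have h1 : ∀ S, 1 ≤ mult h φ (κ.comp (σ S)) := fun S =>
      (Nat.one_le_iff_ne_zero.2 hκ).trans (mult_le_conj h φ (g S) (σ S) (hσ S) κ)
    have h2 : 2 ^ k ≤ ∑ κ' : A →* ℂˣ, mult h φ κ' := by
      calc 2 ^ k = ∑ _S : Finset (Fin k), 1 := by simp
        _ ≤ ∑ S : Finset (Fin k), mult h φ (κ.comp (σ S)) := Finset.sum_le_sum fun S _ => h1 S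
        _ = ∑ κ' ∈ Finset.univ.image (fun S => κ.comp (σ S)), mult h φ κ' := by
            rw [Finset.sum_image (fun x _ y _ hxy => hinj hxy)]
        _ ≤ ∑ κ' : A →* ℂˣ, mult h φ κ' :=
            Finset.sum_le_sum_of_subset (Finset.subset_univ _)
    have h3 := sum_mult h φ
    rw [hr] at h3
    have h4 : r = ∑ κ' : A →* ℂˣ, mult h φ κ' := by exact_mod_cast h3
    omega
  have h1 := expand h φ ⟨c, hcA⟩
  have h2 := expand h φ 1
  have h3 : ∀ κ : A →* ℂˣ, (mult h φ κ : ℂ) * ((κ ⟨c, hcA⟩ : ℂˣ) : ℂ)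
      = (mult h φ κ : ℂ) * ((κ 1 : ℂˣ) : ℂ) := by
    intro κ
    by_cases h0 : mult h φ κ = 0
    · rw [h0]; simp
    · rw [hker κ h0, map_one]
  simp_rw [h3] at h1
  rw [← h2, map_one] at h1
  exact h1

end Pool.Agent.H72.Cover
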