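import Pool.Agent.H72.Cover.Center
import Pool.Agent.H72.Cover.Heis
import Pool.Agent.H72.Exact.Order

/-!
Heilbronn class functions of small degree on perfect central extensions of alternating groups.
-/

open Equiv Equiv.Perm

namespace Pool.Agent.H72.Cover

open Pool.Agent.H7.HB

/-- A Heilbronn class function which factors through a quotient is one on the quotient. -/
theorem heil_descend {X Q : Type} [Group X] [Finite X] [Group Q] (f : X →* Q)
    (hf : Function.Surjective f) {θ : X → ℂ} (h : Heil θ) {θ' : Q → ℂ}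
    (he : ∀ x, θ' (f x) = θ x) : Heil θ' where
  conj g x := by
    obtain ⟨g, rfl⟩ := hf g
    obtain ⟨x, rfl⟩ := hf x
    rw [← map_inv, ← map_mul, ← map_mul, he, he, h.conj]
  coeff K _ _ φ ψ := by
    classical
    let P : Subgroup (K × X) :=
      MonoidHom.eqLocus (φ.comp (MonoidHom.fst K X)) (f.comp (MonoidHom.snd K X))
    let _ : Fintype P := Fintype.ofFinite P
    let pr : P →* K := (MonoidHom.fst K X).comp P.subtype
    have hpr : Function.Surjective pr := by
      intro k
      obtain ⟨x, hx⟩ := hf (φ k)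
      exact ⟨⟨(k, x), hx.symm⟩, rfl⟩
    obtain ⟨N, hN, hsum⟩ := sum_comp_surj pr hpr (fun k => θ' (φ k) * (((ψ k)⁻¹ : ℂˣ) : ℂ))
    obtain ⟨m, hm⟩ := h.coeff P ((MonoidHom.snd K X).comp P.subtype) (ψ.comp pr)
    refine ⟨m, ?_⟩
    have h1 : ∑ k : P, θ (((MonoidHom.snd K X).comp P.subtype) k) *
        ((((ψ.comp pr) k)⁻¹ : ℂˣ) : ℂ)
        = ∑ p : P, (fun k => θ' (φ k) * (((ψ k)⁻¹ : ℂˣ) : ℂ)) (pr p) := by
      refine Finset.sum_congr rfl fun p _ => ?_
      have hp : φ p.1.1 = f p.1.2 := p.2
      change θ p.1.2 * _ = θ' (φ p.1.1) * _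
      rw [hp, he]
      rfl
    rw [h1, hsum, hN] at hm
    have hN' : (N : ℂ) ≠ 0 := by
      intro h0
      have h0' : N = 0 := by exact_mod_cast h0
      rw [h0', zero_mul] at hN
      exact Fintype.card_ne_zero hN
    have : (N : ℂ) * ∑ k : K, θ' (φ k) * (((ψ k)⁻¹ : ℂˣ) : ℂ)
        = (N : ℂ) * (m * (Fintype.card K : ℂ)) := by rw [hm]; push_cast; ring
    exact mul_left_cancel₀ hN' this

section blocks

variable {α : Type} [DecidableEq α] [Fintype α] {X : Type} [Group X] {π : X →* Perm α}

theorem Cov.commute_block (h : Cov π) {a b c d : α} (hd : Dist4 a b c d) {T y : X}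
    (ha : π T a = a) (hb : π T b = b) (hc : π T c = c) (hdd : π T d = d)
    (hy : π y = swap a b * swap c d) : Commute T y := by
  obtain ⟨p, hp⟩ := h.lift (g := cyc b c d) (isThreeCycle_cyc hd.bc hd.bd hd.cd).sign
  obtain ⟨q, hq⟩ := h.lift (g := swap a c * swap b d)
    (by rw [map_mul, sign_swap hd.ac, sign_swap hd.bd]; simp)
  have hcs : ∀ x y : α, π T x = x → π T y = y → Commute (π T) (swap x y) := by
    intro x y hx hy
    have := conj_swap (π T) x y
    rw [hx, hy] at this
    exact (mul_inv_eq_iff_eq_mul.1 this)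
  refine h.commute_commutator (p := p) (q := q) ?_ ?_ ?_
  · rw [hy, map_mul, map_mul, map_mul, map_inv, map_inv, hp, hq]
    have e1 : cyc b c d * (swap a c * swap b d) * (cyc b c d)⁻¹
        = (cyc b c d * swap a c * (cyc b c d)⁻¹) * (cyc b c d * swap b d * (cyc b c d)⁻¹) := by
      group
    have v1 : cyc b c d a = a := cyc_other hd.ab hd.ac hd.ad
    rw [e1, conj_swap, conj_swap, v1, cyc_snd hd.bd hd.cd, cyc_fst hd.bc hd.bd, cyc_thd]
    rw [mul_inv_rev, swap_inv, swap_inv]
    have e2 : swap a d * swap c b * (swap b d * swap a c) = swap a b * swap c d := by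
      ext x
      simp only [Perm.mul_apply]
      by_cases hxa : x = a
      · subst hxa
        rw [swap_apply_left, swap_apply_of_ne_of_ne hd.bc.symm hd.cd, swap_apply_left,
          swap_apply_of_ne_of_ne hd.ab.symm hd.bd, swap_apply_of_ne_of_ne hd.ac hd.ad,
          swap_apply_left]
      by_cases hxb : x = b
      · subst hxb
        rw [swap_apply_of_ne_of_ne hxa hd.bc, swap_apply_left,
          swap_apply_of_ne_of_ne hd.cd.symm hd.bd.symm, swap_apply_right,
          swap_apply_of_ne_of_ne hd.bc hd.bd, swap_apply_right]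
      by_cases hxc : x = c
      · subst hxc
        rw [swap_apply_right, swap_apply_of_ne_of_ne hd.ab hd.ad,
          swap_apply_of_ne_of_ne hd.ac hd.ab, swap_apply_left, swap_apply_left,
          swap_apply_of_ne_of_ne hd.ad.symm hd.bd.symm]
      by_cases hxd : x = d
      · subst hxd
        rw [swap_apply_of_ne_of_ne hxa hxc, swap_apply_right, swap_apply_right,
          swap_apply_of_ne_of_ne hd.ac.symm hd.cd, swap_apply_right,
          swap_apply_of_ne_of_ne hd.ac.symm hd.bc.symm]
      · rw [swap_apply_of_ne_of_ne hxa hxc, swap_apply_of_ne_of_ne hxb hxd,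
          swap_apply_of_ne_of_ne hxc hxb, swap_apply_of_ne_of_ne hxa hxd,
          swap_apply_of_ne_of_ne hxc hxd, swap_apply_of_ne_of_ne hxa hxb]
    exact e2.symm
  · rw [hp]
    exact (hcs _ _ hb hc).mul_right (hcs _ _ hc hdd)
  · rw [hq]
    exact (hcs _ _ ha hc).mul_right (hcs _ _ hb hdd)

end blocks

/-- **Covers of alternating groups.**  A Heilbronn class function of degree at most `n - 2`
(`n - 3` for prime `n`) on a perfect central extension of `A_n`, `n ≥ 20`, is constant. -/
theorem heil_cover_alternating {X : Type} [Group X] [Finite X] {n : ℕ} (hn : 20 ≤ n)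
    (π : X →* Perm (Fin n)) (hπ : π.range = alternatingGroup (Fin n))
    (hker : π.ker ≤ Subgroup.center X) (hperf : commutator X = ⊤) {θ : X → ℂ} (h : Heil θ)
    {r : ℕ} (hr : θ 1 = r) (hrn : r + 2 ≤ n) (hp : n.Prime → r + 3 ≤ n) (g : X) : θ g = r := by
  classical
  have hcov : Cov π := ⟨hπ, fun z hz x => by
    have := Subgroup.mem_center_iff.1 (hker (MonoidHom.mem_ker.2 hz)) x
    exact this.symm, hperf⟩
  have hcard : Fintype.card (Fin n) = n := Fintype.card_fin n
  obtain ⟨c, hc1, hc, hcc⟩ := hcov.exists_c (by omega)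
  -- the blocks
  set k := n / 4 with hk
  have hpt : ∀ (i : Fin k) (j : Fin 4), 4 * (i : ℕ) + (j : ℕ) < n := by
    intro i j
    have := i.2
    have := j.2
    omega
  let e : Fin k → Fin 4 → Fin n := fun i j => ⟨4 * (i : ℕ) + (j : ℕ), hpt i j⟩
  have he : ∀ i j i' j', e i j = e i' j' → i = i' ∧ j = j' := by
    intro i j i' j' h
    have h1 : 4 * (i : ℕ) + (j : ℕ) = 4 * (i' : ℕ) + (j' : ℕ) := congrArg Fin.val h
    have := j.2
    have := j'.2
    constructor
    · apply Fin.ext; omega
    · apply Fin.ext; omega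
  have hne : ∀ i (j j' : Fin 4), j ≠ j' → e i j ≠ e i j' := fun i j j' hj h => hj (he _ _ _ _ h).2
  have hd : ∀ i, Dist4 (e i 0) (e i 1) (e i 2) (e i 3) := fun i =>
    ⟨hne _ _ _ (by decide), hne _ _ _ (by decide), hne _ _ _ (by decide), hne _ _ _ (by decide),
      hne _ _ _ (by decide), hne _ _ _ (by decide)⟩
  have hne' : ∀ i i' (j j' : Fin 4), i ≠ i' → e i j ≠ e i' j' :=
    fun i i' j j' hi h => hi (he _ _ _ _ h).1
  have ha : ∀ i, ∃ x, π x = swap (e i 0) (e i 1) * swap (e i 2) (e i 3) := fun i =>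
    hcov.lift (by rw [map_mul, sign_swap (hd i).ab, sign_swap (hd i).cd]; simp)
  have hb : ∀ i, ∃ x, π x = swap (e i 0) (e i 2) * swap (e i 1) (e i 3) := fun i =>
    hcov.lift (by rw [map_mul, sign_swap (hd i).ac, sign_swap (hd i).bd]; simp)
  choose a ha using ha
  choose b hb using hb
  have hfix : ∀ i i' (j : Fin 4), i ≠ i' → π (a i) (e i' j) = e i' j ∧ π (b i) (e i' j) = e i' j := by
    intro i i' j hi
    constructor
    · rw [ha, Perm.mul_apply, swap_apply_of_ne_of_ne (hne' _ _ _ _ hi.symm) (hne' _ _ _ _ hi.symm),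
        swap_apply_of_ne_of_ne (hne' _ _ _ _ hi.symm) (hne' _ _ _ _ hi.symm)]
    · rw [hb, Perm.mul_apply, swap_apply_of_ne_of_ne (hne' _ _ _ _ hi.symm) (hne' _ _ _ _ hi.symm),
        swap_apply_of_ne_of_ne (hne' _ _ _ _ hi.symm) (hne' _ _ _ _ hi.symm)]
  have hrk : r < 2 ^ k := by
    have h1 : ∀ m : ℕ, 5 ≤ m → 4 * m + 2 ≤ 2 ^ m := by
      intro m hm
      induction m, hm using Nat.le_induction with
      | base => norm_num
      | succ m hm ih => rw [pow_succ]; omega
    have h2 := h1 k (by omega)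
    omega
  have hθc : θ c = θ 1 := by
    refine heis_bound h a b c hc ?_ ?_ ?_ hr hrk
    · intro i j
      by_cases hij : i = j
      · subst hij; exact Commute.refl _
      · exact hcov.commute_block (hd j) (hfix i j 0 hij).1 (hfix i j 1 hij).1 (hfix i j 2 hij).1
          (hfix i j 3 hij).1 (ha j)
    · intro i j hij
      exact hcov.commute_block (hd j) (hfix i j 0 hij).2 (hfix i j 1 hij).2 (hfix i j 2 hij).2
          (hfix i j 3 hij).2 (ha j)
    · intro i
      exact hcc _ _ _ _ (hd i) _ _ (ha i) (hb i)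
  have hcm : ∀ x, θ (c⁻¹ * x) = θ x := fun x => split_ker h x c (fun i => hc _) hθc
  have hz : ∀ z ∈ Subgroup.zpowers c, ∀ x, θ (z * x) = θ x := by
    intro z hz
    rw [Subgroup.zpowers_eq_closure] at hz
    induction hz using Subgroup.closure_induction with
    | mem z hz =>
      intro x
      rw [Set.mem_singleton_iff] at hz
      have := hcm (c * x)
      rw [inv_mul_cancel_left] at this
      rw [hz, this]
    | one => intro x; rw [one_mul]
    | mul u v _ _ hu hv => intro x; rw [mul_assoc, hu, hv]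
    | inv u _ hu =>
      intro x
      have := hu (u⁻¹ * x)
      rw [mul_inv_cancel_left] at this
      exact this.symm
  have hfac : ∀ x y, π x = π y → θ x = θ y := by
    intro x y hxy
    have h1 : π (x * y⁻¹) = 1 := by rw [map_mul, map_inv, hxy, mul_inv_cancel]
    have h2 := hcov.ker_eq (by omega) hc1 hcc h1
    have h3 := hz _ h2 y
    rw [inv_mul_cancel_right] at h3
    exact h3
  -- the induced function on `A_n`
  let f : X →* alternatingGroup (Fin n) := π.codRestrict _ (fun x => mem_alternatingGroup.2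
    (hcov.sign_eq x))
  have hf : Function.Surjective f := by
    intro u
    obtain ⟨x, hx⟩ := hcov.lift (mem_alternatingGroup.1 u.2)
    exact ⟨x, Subtype.ext hx⟩
  choose s hs using hf
  let θ' : alternatingGroup (Fin n) → ℂ := fun u => θ (s u)
  have hθ' : ∀ x, θ' (f x) = θ x := by
    intro x
    apply hfac
    have := hs (f x)
    exact congrArg Subtype.val this
  have hH : Heil θ' := heil_descend f (fun u => ⟨s u, hs u⟩) h hθ'
  have h1 : θ' 1 = r := by rw [← map_one f, hθ', hr]
  have h2 := Pool.Agent.H72.Exact.heil_alternating' (n := n) (by omega) (MulEquiv.refl _) θ' hH h1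
    hrn hp (f g)
  rw [hθ'] at h2
  exact h2

end Pool.Agent.H72.Cover
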