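import Pool.Agent.H72.Cover.Inj

/-!
The kernel of a perfect central extension of an alternating group is generated by the commutator
of lifts of the four-group (Schur).
-/

open Equiv Equiv.Perm
open scoped commutatorElement

namespace Pool.Agent.H72.Cover

set_option linter.unusedSectionVars false

variable {α : Type} [DecidableEq α] [Fintype α] {X : Type} [Group X] {π : X →* Perm α}

/-- four distinct points -/
structure Dist4 (a b c d : α) : Prop where
  ab : a ≠ b
  ac : a ≠ c
  ad : a ≠ d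
  bc : b ≠ c
  bd : b ≠ d
  cd : c ≠ d

theorem Dist4.inj {a b c d : α} (h : Dist4 a b c d) : Function.Injective ![a, b, c, d] := by
  intro i j hij
  fin_cases i <;> fin_cases j <;>
    simp [h.ab, h.ac, h.ad, h.bc, h.bd, h.cd, h.ab.symm, h.ac.symm, h.ad.symm, h.bc.symm,
      h.bd.symm, h.cd.symm] at hij ⊢

theorem Cov.trans4 (h : Cov π) (h6 : 6 ≤ Fintype.card α) {a b c d a' b' c' d' : α}
    (h1 : Dist4 a b c d) (h2 : Dist4 a' b' c' d') :
    ∃ g, π g a = a' ∧ π g b = b' ∧ π g c = c' ∧ π g d = d' := by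
  have hm := alternatingGroup.isMultiplyPretransitive α
  have hm4 : MulAction.IsMultiplyPretransitive (alternatingGroup α) α 4 := by
    refine MulAction.isMultiplyPretransitive_of_le (n := Nat.card α - 2) ?_ (Nat.sub_le _ _)
    rw [Nat.card_eq_fintype_card]; omega
  obtain ⟨g, hg⟩ := hm4.exists_smul_eq (⟨![a, b, c, d], h1.inj⟩ : Fin 4 ↪ α)
    ⟨![a', b', c', d'], h2.inj⟩
  obtain ⟨x, hx⟩ := h.lift (mem_alternatingGroup.1 g.2)
  refine ⟨x, ?_, ?_, ?_, ?_⟩
  · have := congrArg (fun f : Fin 4 ↪ α => f 0) hg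
    rw [hx]; exact this
  · have := congrArg (fun f : Fin 4 ↪ α => f 1) hg
    rw [hx]; exact this
  · have := congrArg (fun f : Fin 4 ↪ α => f 2) hg
    rw [hx]; exact this
  · have := congrArg (fun f : Fin 4 ↪ α => f 3) hg
    rw [hx]; exact this

theorem exists_dist4 (h4 : 4 ≤ Fintype.card α) : ∃ a b c d : α, Dist4 a b c d := by
  obtain ⟨f⟩ : Nonempty (Fin 4 ↪ α) := by
    rw [Function.Embedding.nonempty_iff_card_le]
    simpa using h4
  have hf : ∀ i j : Fin 4, i ≠ j → f i ≠ f j := fun i j hij e => hij (f.injective e)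
  exact ⟨f 0, f 1, f 2, f 3, ⟨hf _ _ (by decide), hf _ _ (by decide), hf _ _ (by decide),
    hf _ _ (by decide), hf _ _ (by decide), hf _ _ (by decide)⟩⟩

theorem dist4_commute {a b c d : α} (h : Dist4 a b c d) :
    Commute (swap a b * swap c d) (swap a c * swap b d) := by
  have e : swap a c * swap b d * (swap a b * swap c d) * (swap a c * swap b d)⁻¹
      = swap a b * swap c d := by
    have e1 : swap a c * swap b d * (swap a b * swap c d) * (swap a c * swap b d)⁻¹
      = (swap a c * swap b d * swap a b * (swap a c * swap b d)⁻¹) *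
        (swap a c * swap b d * swap c d * (swap a c * swap b d)⁻¹) := by group
    have va : (swap a c * swap b d) a = c := by
      rw [Perm.mul_apply, swap_apply_of_ne_of_ne h.ab h.ad, swap_apply_left]
    have vb : (swap a c * swap b d) b = d := by
      rw [Perm.mul_apply, swap_apply_left, swap_apply_of_ne_of_ne h.ad.symm h.cd.symm]
    have vc : (swap a c * swap b d) c = a := by
      rw [Perm.mul_apply, swap_apply_of_ne_of_ne h.bc.symm h.cd, swap_apply_right]
    have vd : (swap a c * swap b d) d = b := by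
      rw [Perm.mul_apply, swap_apply_right, swap_apply_of_ne_of_ne h.ab.symm h.bc]
    rw [e1, conj_swap, conj_swap, va, vb, vc, vd]
    have hc : Commute (swap c d) (swap a b) := by
      apply Disjoint.commute
      rw [disjoint_iff_disjoint_support, support_swap h.cd, support_swap h.ab]
      simp [h.ac, h.ad, h.bc, h.bd]
    exact hc.eq
  exact ((mul_inv_eq_iff_eq_mul.1 e)).symm

/-- the commutator of lifts of the four-group, a central element independent of all choices -/
theorem Cov.exists_c (h : Cov π) (h6 : 6 ≤ Fintype.card α) : ∃ c : X, π c = 1 ∧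
    (∀ g, Commute c g) ∧ ∀ a b a' b' : α, Dist4 a b a' b' → ∀ x y : X,
      π x = swap a b * swap a' b' → π y = swap a a' * swap b b' → y * x * y⁻¹ = x * c := by
  obtain ⟨a, b, a', b', hd⟩ := exists_dist4 (α := α) (by omega)
  obtain ⟨x₀, hx₀⟩ := h.lift (g := swap a b * swap a' b')
    (by rw [map_mul, sign_swap hd.ab, sign_swap hd.cd]; simp)
  obtain ⟨y₀, hy₀⟩ := h.lift (g := swap a a' * swap b b')
    (by rw [map_mul, sign_swap hd.ac, sign_swap hd.bd]; simp)
  have hc1 : π (x₀⁻¹ * (y₀ * x₀ * y₀⁻¹)) = 1 := by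
    have := (dist4_commute hd).eq
    rw [map_mul, map_mul, map_mul, map_inv, map_inv, hx₀, hy₀, ← this]
    group
  have hc := h.ker _ hc1
  set c := x₀⁻¹ * (y₀ * x₀ * y₀⁻¹) with hcdef
  refine ⟨c, hc1, hc, fun e f e' f' hd' x y hx hy => ?_⟩
  obtain ⟨g, g1, g2, g3, g4⟩ := h.trans4 h6 hd hd'
  have conj2 : ∀ p q r s : α, π g * (swap p q * swap r s) * (π g)⁻¹
      = swap (π g p) (π g q) * swap (π g r) (π g s) := by
    intro p q r s
    rw [← conj_swap, ← conj_swap]; group
  obtain ⟨z, -, hz, rfl⟩ := h.eq_mul (x := x) (y := g * x₀ * g⁻¹) (by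
    rw [map_mul, map_mul, map_inv, hx₀, conj2, g1, g2, g3, g4, hx])
  obtain ⟨w, -, hw, rfl⟩ := h.eq_mul (x := y) (y := g * y₀ * g⁻¹) (by
    rw [map_mul, map_mul, map_inv, hy₀, conj2, g1, g2, g3, g4, hy])
  have e1 : y₀ * x₀ * y₀⁻¹ = x₀ * c := by rw [hcdef]; group
  calc g * y₀ * g⁻¹ * w * (g * x₀ * g⁻¹ * z) * (g * y₀ * g⁻¹ * w)⁻¹
      = g * y₀ * g⁻¹ * (w * (g * x₀ * g⁻¹ * z)) * w⁻¹ * (g * y₀ * g⁻¹)⁻¹ := by group
    _ = g * y₀ * g⁻¹ * ((g * x₀ * g⁻¹ * z) * w) * w⁻¹ * (g * y₀ * g⁻¹)⁻¹ := by rw [(hw _).eq]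
    _ = g * y₀ * g⁻¹ * (g * x₀ * g⁻¹) * (z * (g * y₀ * g⁻¹)⁻¹) := by group
    _ = g * y₀ * g⁻¹ * (g * x₀ * g⁻¹) * ((g * y₀ * g⁻¹)⁻¹ * z) := by rw [(hz _).eq]
    _ = g * (y₀ * x₀ * y₀⁻¹) * g⁻¹ * z := by group
    _ = g * (x₀ * c) * g⁻¹ * z := by rw [e1]
    _ = g * x₀ * (c * (g⁻¹ * z)) := by group
    _ = g * x₀ * ((g⁻¹ * z) * c) := by rw [(hc _).eq]
    _ = g * x₀ * g⁻¹ * z * c := by group

/-- the kernel is generated by `c` -/
theorem Cov.ker_eq (h : Cov π) (h8 : 8 ≤ Fintype.card α) {c : X} (hc1 : π c = 1)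
    (hc : ∀ a b a' b' : α, Dist4 a b a' b' → ∀ x y : X,
      π x = swap a b * swap a' b' → π y = swap a a' * swap b b' → y * x * y⁻¹ = x * c)
    {z : X} (hz : π z = 1) : z ∈ Subgroup.zpowers c := by
  have hcent : ∀ g, Commute c g := h.ker c hc1
  have hN : (Subgroup.zpowers c).Normal := by
    refine ⟨fun n hn g => ?_⟩
    obtain ⟨k, rfl⟩ := Subgroup.mem_zpowers_iff.1 hn
    have : Commute (c ^ k) g := (hcent g).zpow_left k
    rw [← this.eq, mul_inv_cancel_right]
    exact ⟨k, rfl⟩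
  have hle : ∀ x ∈ Subgroup.zpowers c, π x = 1 := by
    intro x hx
    obtain ⟨k, rfl⟩ := Subgroup.mem_zpowers_iff.1 hx
    rw [map_zpow, hc1, one_zpow]
  let π' : X ⧸ Subgroup.zpowers c →* Perm α := QuotientGroup.lift (Subgroup.zpowers c) π hle
  have hπ' : ∀ x : X, π' (x : X ⧸ Subgroup.zpowers c) = π x := fun x => QuotientGroup.lift_mk' _ _ x
  have hcov : Cov π' := by
    refine ⟨?_, ?_, ?_⟩
    · rw [← h.range]
      ext g
      constructor
      · rintro ⟨x, rfl⟩
        obtain ⟨x, rfl⟩ := QuotientGroup.mk_surjective x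
        exact ⟨x, (hπ' x).symm⟩
      · rintro ⟨x, rfl⟩
        exact ⟨x, hπ' x⟩
    · intro z hz x
      obtain ⟨z, rfl⟩ := QuotientGroup.mk_surjective z
      obtain ⟨x, rfl⟩ := QuotientGroup.mk_surjective x
      rw [hπ'] at hz
      have := (h.ker z hz x).eq
      change (z : X ⧸ Subgroup.zpowers c) * x = x * z
      rw [← QuotientGroup.mk_mul, ← QuotientGroup.mk_mul, this]
    · have := h.perf
      rw [commutator_eq_closure] at this ⊢
      rw [eq_top_iff]
      rintro x -
      obtain ⟨x, rfl⟩ := QuotientGroup.mk_surjective x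
      have hx : x ∈ Subgroup.closure (commutatorSet X) := by rw [this]; trivial
      have hx2 : QuotientGroup.mk' (Subgroup.zpowers c) x ∈
          (Subgroup.closure (commutatorSet X)).map (QuotientGroup.mk' (Subgroup.zpowers c)) :=
        ⟨x, hx, rfl⟩
      rw [MonoidHom.map_closure] at hx2
      refine Subgroup.closure_mono ?_ hx2
      rintro _ ⟨_, ⟨p, q, rfl⟩, rfl⟩
      exact ⟨(p : X ⧸ Subgroup.zpowers c), q, by simp [commutatorElement_def]⟩
  have h4 : FourComm π' := by
    intro a b a' b' h1 h2 h3 h4 h5 h6 x y hx hy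
    obtain ⟨x, rfl⟩ := QuotientGroup.mk_surjective x
    obtain ⟨y, rfl⟩ := QuotientGroup.mk_surjective y
    rw [hπ'] at hx hy
    have e := hc a b a' b' ⟨h1, h2, h3, h4, h5, h6⟩ x y hx hy
    have e2 : y * x = x * y * c := by
      calc y * x = (y * x * y⁻¹) * y := by group
        _ = x * (c * y) := by rw [e]; group
        _ = x * (y * c) := by rw [(hcent y).eq]
        _ = _ := by group
    change (x : X ⧸ Subgroup.zpowers c) * y = y * x
    rw [← QuotientGroup.mk_mul, ← QuotientGroup.mk_mul, e2, QuotientGroup.eq]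
    rw [inv_mul_cancel_left]
    exact Subgroup.mem_zpowers c
  have hinj := hcov.injective h8 h4
  have h1 : ((z : X) : X ⧸ Subgroup.zpowers c) = 1 := by
    apply hinj
    rw [hπ', hz, map_one]
  exact (QuotientGroup.eq_one_iff z).1 h1

end Pool.Agent.H72.Cover
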