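import Pool.Agent.H72.Cover.Lift

/-!
Canonical lifts of 3-cycles, and injectivity of `π` when the lifts of the four-groups commute.
-/

open Equiv Equiv.Perm

namespace Pool.Agent.H72.Cover

variable {α : Type} [DecidableEq α] [Fintype α] {X : Type} [Group X] {π : X →* Perm α}

/-- canonical lift of a 3-cycle -/
structure Good (π : X →* Perm α) (T : X) : Prop where
  three : IsThreeCycle (π T)
  cube : T * T * T = 1
  conj : ∃ g, g * T * g⁻¹ = T⁻¹

theorem Good.map (T : X) (hT : Good π T) (g : X) : Good π (g * T * g⁻¹) where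
  three := by
    have : IsConj (π T) (π (g * T * g⁻¹)) := isConj_iff.2 ⟨π g, by simp⟩
    rw [isConj_iff_cycleType_eq] at this
    rw [IsThreeCycle, ← this]
    exact hT.three
  cube := by
    calc g * T * g⁻¹ * (g * T * g⁻¹) * (g * T * g⁻¹) = g * (T * T * T) * g⁻¹ := by group
      _ = 1 := by rw [hT.cube]; group
  conj := by
    obtain ⟨k, hk⟩ := hT.conj
    refine ⟨g * k * g⁻¹, ?_⟩
    calc g * k * g⁻¹ * (g * T * g⁻¹) * (g * k * g⁻¹)⁻¹ = g * (k * T * k⁻¹) * g⁻¹ := by group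
      _ = g * T⁻¹ * g⁻¹ := by rw [hk]
      _ = (g * T * g⁻¹)⁻¹ := by group

theorem Good.inv {T : X} (hT : Good π T) : Good π T⁻¹ where
  three := by rw [map_inv]; exact hT.three.inv
  cube := by
    have : T⁻¹ * T⁻¹ * T⁻¹ = (T * T * T)⁻¹ := by group
    rw [this, hT.cube, inv_one]
  conj := by
    obtain ⟨k, hk⟩ := hT.conj
    refine ⟨k, ?_⟩
    calc k * T⁻¹ * k⁻¹ = (k * T * k⁻¹)⁻¹ := by group
      _ = T⁻¹⁻¹ := by rw [hk]

theorem Good.sq {T : X} (hT : Good π T) : T * T = T⁻¹ :=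
  eq_inv_of_mul_eq_one_left hT.cube

theorem Cov.good_unique (h : Cov π) (h8 : 8 ≤ Fintype.card α) {T T' : X} (hT : Good π T)
    (hT' : Good π T') (he : π T' = π T) : T' = T := by
  obtain ⟨y, -, hy, rfl⟩ := h.eq_mul he
  obtain ⟨g, hg⟩ := hT.conj
  obtain ⟨g', hg'⟩ := hT'.conj
  -- `y ^ 3 = 1`
  have h3 : y * y * y = 1 := by
    have e := hT'.cube
    have : T * y * (T * y) * (T * y) = (T * T * T) * (y * y * y) := by
      calc T * y * (T * y) * (T * y) = T * (y * T) * (y * T) * y := by group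
        _ = T * (T * y) * (T * y) * y := by rw [(hy T).eq]
        _ = T * T * (y * T) * y * y := by group
        _ = T * T * (T * y) * y * y := by rw [(hy T).eq]
        _ = _ := by group
    rw [this, hT.cube, one_mul] at e
    exact e
  have h1 : g' * T * g'⁻¹ = T⁻¹ * (y⁻¹ * y⁻¹) := by
    have e : g' * T * g'⁻¹ * y = y⁻¹ * T⁻¹ := by
      calc g' * T * g'⁻¹ * y = g' * T * (g'⁻¹ * y) := by group
        _ = g' * T * (y * g'⁻¹) := by rw [(hy g'⁻¹).eq]
        _ = g' * (T * y) * g'⁻¹ := by group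
        _ = (T * y)⁻¹ := hg'
        _ = y⁻¹ * T⁻¹ := by group
    have e2 : y⁻¹ * T⁻¹ = T⁻¹ * y⁻¹ := ((hy T).inv_inv).eq
    rw [e2] at e
    calc g' * T * g'⁻¹ = (g' * T * g'⁻¹ * y) * y⁻¹ := by group
      _ = _ := by rw [e]; group
  have h2 : (g⁻¹ * g') * T * (g⁻¹ * g')⁻¹ = T * (y⁻¹ * y⁻¹) := by
    have hyy : g⁻¹ * (y⁻¹ * y⁻¹) = y⁻¹ * y⁻¹ * g⁻¹ :=
      (((hy g⁻¹).inv_left.mul_left (hy g⁻¹).inv_left).eq).symm
    have e4 : g⁻¹ * T⁻¹ * g = T := by
      rw [← hg]; group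
    calc (g⁻¹ * g') * T * (g⁻¹ * g')⁻¹ = g⁻¹ * (g' * T * g'⁻¹) * g := by group
      _ = g⁻¹ * (T⁻¹ * (y⁻¹ * y⁻¹)) * g := by rw [h1]
      _ = g⁻¹ * T⁻¹ * (y⁻¹ * y⁻¹ * g) := by group
      _ = g⁻¹ * T⁻¹ * (g * (y⁻¹ * y⁻¹)) := by
          rw [((hy g).inv_left.mul_left (hy g).inv_left).eq]
      _ = (g⁻¹ * T⁻¹ * g) * (y⁻¹ * y⁻¹) := by group
      _ = T * (y⁻¹ * y⁻¹) := by rw [e4]
  have hc : Commute (π (g⁻¹ * g')) (π T) := by
    have e := congrArg π h2
    have hy1 : π y = 1 := by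
      have := he
      rw [map_mul] at this
      exact mul_eq_left.1 this
    simp only [map_mul, map_inv, hy1, inv_one, mul_one] at e ⊢
    exact mul_inv_eq_iff_eq_mul.1 e
  have hcc := h.commute_of_three h8 hT.three hc
  rw [hcc.eq, mul_inv_cancel_right] at h2
  have h5 : y⁻¹ * y⁻¹ = 1 := by
    exact (mul_eq_left.1 h2.symm)
  have h6 : y * y = 1 := by
    have : y * y = (y⁻¹ * y⁻¹)⁻¹ := by rw [mul_inv_rev, inv_inv]
    rw [this, h5, inv_one]
  rw [h6, one_mul] at h3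
  rw [h3, mul_one]

theorem Cov.good_exists (h : Cov π) (h8 : 8 ≤ Fintype.card α) {t : Perm α}
    (ht : IsThreeCycle t) : ∃ T, Good π T ∧ π T = t := by
  obtain ⟨T, rfl⟩ := h.lift ht.sign
  have h5 : 5 ≤ Nat.card α := by rw [Nat.card_eq_fintype_card]; omega
  obtain ⟨⟨p, hp⟩, hconj⟩ := isConj_iff.1 (alternatingGroup.isThreeCycle_isConj h5
    (σ := ⟨π T, mem_alternatingGroup.2 ht.sign⟩) (τ := ⟨(π T)⁻¹, mem_alternatingGroup.2 ht.inv.sign⟩)
    ht ht.inv)
  have hpc : p * π T * p⁻¹ = (π T)⁻¹ := congrArg Subtype.val hconj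
  obtain ⟨g, rfl⟩ := h.lift (mem_alternatingGroup.1 hp)
  obtain ⟨z, hz1, hz, hgz⟩ := h.eq_mul (x := g * T * g⁻¹) (y := T⁻¹) (by
    rw [map_mul, map_mul, map_inv, hpc, map_inv])
  have hord : π (T * T * T) = 1 := by
    have := pow_orderOf_eq_one (π T)
    rw [ht.orderOf] at this
    rw [map_mul, map_mul, ← this, pow_succ, pow_two]
  have hw : ∀ x, Commute (T * T * T) x := h.ker _ hord
  set w := T * T * T with hwdef
  -- `w * w = z * z * z`
  have hwz : w * w = z * z * z := by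
    have e1 : g * w * g⁻¹ = w := by rw [← (hw g).eq, mul_inv_cancel_right]
    have e2 : g * w * g⁻¹ = w⁻¹ * (z * z * z) := by
      calc g * w * g⁻¹ = (g * T * g⁻¹) * (g * T * g⁻¹) * (g * T * g⁻¹) := by rw [hwdef]; group
        _ = (T⁻¹ * z) * (T⁻¹ * z) * (T⁻¹ * z) := by rw [hgz]
        _ = T⁻¹ * (z * T⁻¹) * (z * T⁻¹) * z := by group
        _ = T⁻¹ * (T⁻¹ * z) * (T⁻¹ * z) * z := by rw [(hz T⁻¹).eq]
        _ = T⁻¹ * T⁻¹ * (z * T⁻¹) * z * z := by group
        _ = T⁻¹ * T⁻¹ * (T⁻¹ * z) * z * z := by rw [(hz T⁻¹).eq]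
        _ = w⁻¹ * (z * z * z) := by rw [hwdef]; group
    rw [e1] at e2
    calc w * w = w * (w⁻¹ * (z * z * z)) := by rw [← e2]
      _ = _ := by group
  have hzw : z * w = w * z := (hz w).eq
  have hwi : Commute w⁻¹ z := (hw z).inv_left
  -- the correcting factor `y = z * w⁻¹`
  have hy : ∀ x, Commute (z * w⁻¹) x := fun x => (hz x).mul_left (hw x).inv_left
  have hy2 : z * ((z * w⁻¹) * (z * w⁻¹)) = 1 := by
    calc z * ((z * w⁻¹) * (z * w⁻¹)) = z * z * (w⁻¹ * z) * w⁻¹ := by group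
      _ = z * z * (z * w⁻¹) * w⁻¹ := by rw [hwi.eq]
      _ = (z * z * z) * (w * w)⁻¹ := by group
      _ = 1 := by rw [hwz]; group
  have hy3 : w * ((z * w⁻¹) * (z * w⁻¹) * (z * w⁻¹)) = 1 := by
    calc w * ((z * w⁻¹) * (z * w⁻¹) * (z * w⁻¹))
        = (w * z) * w⁻¹ * ((z * w⁻¹) * (z * w⁻¹)) := by group
      _ = (z * w) * w⁻¹ * ((z * w⁻¹) * (z * w⁻¹)) := by rw [hzw]
      _ = z * ((z * w⁻¹) * (z * w⁻¹)) := by group
      _ = 1 := hy2
  set y := z * w⁻¹ with hydef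
  have hy1 : π y = 1 := by rw [hydef, map_mul, map_inv, hz1, hord]; simp
  refine ⟨T * y, ⟨?_, ?_, g, ?_⟩, ?_⟩
  · rw [map_mul, hy1, mul_one]; exact ht
  · calc T * y * (T * y) * (T * y) = T * (y * T) * (y * T) * y := by group
        _ = T * (T * y) * (T * y) * y := by rw [(hy T).eq]
        _ = T * T * (y * T) * y * y := by group
        _ = T * T * (T * y) * y * y := by rw [(hy T).eq]
        _ = w * (y * y * y) := by rw [hwdef]; group
        _ = 1 := hy3
  · calc g * (T * y) * g⁻¹ = g * T * (y * g⁻¹) := by group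
      _ = g * T * (g⁻¹ * y) := by rw [(hy g⁻¹).eq]
      _ = (g * T * g⁻¹) * y := by group
      _ = T⁻¹ * z * y := by rw [hgz]
      _ = T⁻¹ * (z * (y * y)) * y⁻¹ := by group
      _ = T⁻¹ * y⁻¹ := by rw [hy2, mul_one]
      _ = y⁻¹ * T⁻¹ := ((hy T).inv_inv).eq.symm
      _ = (T * y)⁻¹ := by group
  · rw [map_mul, hy1, mul_one]

/-- hypothesis: lifts of the four-groups commute -/
def FourComm (π : X →* Perm α) : Prop :=
  ∀ a b c d : α, a ≠ b → a ≠ c → a ≠ d → b ≠ c → b ≠ d → c ≠ d → ∀ x y : X,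
    π x = swap a b * swap c d → π y = swap a c * swap b d → Commute x y

/-- The basic relation between the canonical lifts. -/
theorem Cov.rel (h : Cov π) (h8 : 8 ≤ Fintype.card α) (h4 : FourComm π) {i j p q : α}
    (hip : i ≠ p) (hiq : i ≠ q) (hij : i ≠ j) (hpq : p ≠ q) (hpj : p ≠ j) (hqj : q ≠ j)
    {A B : X} (hA : Good π A) (hB : Good π B) (hπA : π A = cyc i p q) (hπB : π B = cyc j p q) :
    Good π (A * B⁻¹) := by
  set d := A * B with hd
  have hπd : π d = swap i p * swap q j := by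
    rw [hd, map_mul, hπA, hπB, swap_mul_swap_eq hip hiq hij hpq hpj hqj]
  have hAi : (π A)⁻¹ i = q := by rw [hπA, Perm.inv_eq_iff_eq, cyc_thd]
  have hAp : (π A)⁻¹ p = i := by rw [hπA, Perm.inv_eq_iff_eq, cyc_fst hip hiq]
  have hAq : (π A)⁻¹ q = p := by rw [hπA, Perm.inv_eq_iff_eq, cyc_snd hiq hpq]
  have hAj : (π A)⁻¹ j = j := by
    rw [hπA, Perm.inv_eq_iff_eq, cyc_other hij.symm hpj.symm hqj.symm]
  set d1 := A⁻¹ * d * A with hd1
  have hπd1 : π d1 = swap i q * swap p j := by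
    have e1 : π d1 = ((π A)⁻¹ * swap i p * (π A)⁻¹⁻¹) * ((π A)⁻¹ * swap q j * (π A)⁻¹⁻¹) := by
      rw [hd1, map_mul, map_mul, map_inv, hπd]
      group
    rw [e1, conj_swap, conj_swap, hAi, hAp, hAq, hAj, swap_comm q i]
  have c01 : Commute d d1 := h4 i p q j hip hiq hij hpq hpj hqj d d1 hπd hπd1
  set d2 := A⁻¹ * d1 * A with hd2
  have c12 : Commute d1 d2 := by
    have := Commute.conj_iff (h := A⁻¹) |>.2 c01
    simpa [hd1, hd2] using this
  have c20 : Commute d2 d := by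
    have := Commute.conj_iff (h := A⁻¹) |>.2 c12
    have e : A⁻¹ * d2 * A = d := by
      calc A⁻¹ * d2 * A = (A * A * A)⁻¹ * d * (A * A * A) := by rw [hd2, hd1]; group
        _ = d := by rw [hA.cube]; group
    simpa [← hd2, e] using this
  -- the square of `d`
  have hdd : π (d * d) = 1 := by
    rw [map_mul, hπd]
    have hc : Commute (swap i p) (swap q j) := by
      apply Disjoint.commute
      rw [disjoint_iff_disjoint_support, support_swap hip, support_swap hqj]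
      simp [hij.symm, hpj.symm, hiq.symm, hpq.symm]
    calc swap i p * swap q j * (swap i p * swap q j)
        = swap i p * (swap q j * swap i p) * swap q j := by group
      _ = swap i p * (swap i p * swap q j) * swap q j := by rw [hc.eq]
      _ = (swap i p * swap i p) * (swap q j * swap q j) := by group
      _ = 1 := by rw [swap_mul_self, swap_mul_self, one_mul]
  have hz : ∀ x, Commute (d * d) x := h.ker _ hdd
  have e1 : d1 * d1 = d * d := by
    calc d1 * d1 = A⁻¹ * (d * d) * A := by rw [hd1]; group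
      _ = A⁻¹ * (A * (d * d)) := by rw [mul_assoc, (hz A).eq]
      _ = d * d := by group
  have e2 : d2 * d2 = d * d := by
    calc d2 * d2 = A⁻¹ * (d1 * d1) * A := by rw [hd2]; group
      _ = A⁻¹ * (A * (d * d)) := by rw [e1, mul_assoc, (hz A).eq]
      _ = d * d := by group
  have e3 : d1 * d2 * d = 1 := by
    have hB' : B = A⁻¹ * d := by rw [hd]; group
    have := hB.cube
    rw [hB'] at this
    calc d1 * d2 * d = (A⁻¹ * d * (A⁻¹ * d) * (A⁻¹ * d)) := by
          calc d1 * d2 * d = A⁻¹ * d * A * (A⁻¹ * A⁻¹ * d * A * A) * d := by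
                rw [hd2, hd1]; group
            _ = A⁻¹ * d * (A⁻¹ * d) * (A * A) * d := by group
            _ = A⁻¹ * d * (A⁻¹ * d) * A⁻¹ * d := by rw [hA.sq]
            _ = _ := by group
      _ = 1 := this
  have e4 : (d * d) * (d * d) * (d * d) = 1 := by
    have : (d1 * d2 * d) * (d1 * d2 * d) = (d1 * d1) * (d2 * d2) * (d * d) := by
      calc (d1 * d2 * d) * (d1 * d2 * d) = d1 * d2 * (d * d1) * d2 * d := by group
        _ = d1 * d2 * (d1 * d) * d2 * d := by rw [c01.eq]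
        _ = d1 * (d2 * d1) * (d * d2) * d := by group
        _ = d1 * (d1 * d2) * (d2 * d) * d := by rw [← c12.eq, ← c20.eq]
        _ = _ := by group
    rw [e3, e1, e2, one_mul] at this
    exact this.symm
  -- inversion
  have hcard : ∃ u v : α, u ≠ v ∧ u ∉ ({i, j, p, q} : Finset α) ∧ v ∉ ({i, j, p, q} : Finset α) := by
    have hc : 1 < (Finset.univ \ ({i, j, p, q} : Finset α)).card := by
      rw [Finset.card_univ_sdiff]
      have : ({i, j, p, q} : Finset α).card ≤ 4 := Finset.card_le_four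
      omega
    obtain ⟨u, hu, v, hv, huv⟩ := Finset.one_lt_card.1 hc
    exact ⟨u, v, huv, (Finset.mem_sdiff.1 hu).2, (Finset.mem_sdiff.1 hv).2⟩
  obtain ⟨u, v, huv, hu, hv⟩ := hcard
  simp only [Finset.mem_insert, Finset.mem_singleton, not_or] at hu hv
  obtain ⟨g, hg⟩ := h.lift (g := swap p q * swap u v) (by
    rw [map_mul, sign_swap hpq, sign_swap huv]; simp)
  have gi : π g i = i := by
    rw [hg, Perm.mul_apply, swap_apply_of_ne_of_ne (Ne.symm hu.1) (Ne.symm hv.1),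
      swap_apply_of_ne_of_ne hip hiq]
  have gj : π g j = j := by
    rw [hg, Perm.mul_apply, swap_apply_of_ne_of_ne (Ne.symm hu.2.1) (Ne.symm hv.2.1),
      swap_apply_of_ne_of_ne hpj.symm hqj.symm]
  have gp : π g p = q := by
    rw [hg, Perm.mul_apply, swap_apply_of_ne_of_ne (Ne.symm hu.2.2.1) (Ne.symm hv.2.2.1),
      swap_apply_left]
  have gq : π g q = p := by
    rw [hg, Perm.mul_apply, swap_apply_of_ne_of_ne (Ne.symm hu.2.2.2) (Ne.symm hv.2.2.2),
      swap_apply_right]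
  have hgA : g * A * g⁻¹ = A⁻¹ := by
    refine h.good_unique h8 hA.inv (hA.map _ g) ?_
    rw [map_mul, map_mul, map_inv, hπA, cyc_conj, gi, gp, gq, map_inv, hπA, cyc_inv hip hiq hpq]
  have hgB : g * B * g⁻¹ = B⁻¹ := by
    refine h.good_unique h8 hB.inv (hB.map _ g) ?_
    rw [map_mul, map_mul, map_inv, hπB, cyc_conj, gj, gp, gq, map_inv, hπB,
      cyc_inv hpj.symm hqj.symm hpq]
  have e5 : (d * d) * (d * d) = 1 := by
    have f1 : g * (d * d) * g⁻¹ = d * d := by rw [← (hz g).eq, mul_inv_cancel_right]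
    have f2 : g * (d * d) * g⁻¹ = (B * (d * d) * B⁻¹)⁻¹ := by
      calc g * (d * d) * g⁻¹ = (g * A * g⁻¹) * (g * B * g⁻¹) * ((g * A * g⁻¹) * (g * B * g⁻¹)) := by
            rw [hd]; group
        _ = A⁻¹ * B⁻¹ * (A⁻¹ * B⁻¹) := by rw [hgA, hgB]
        _ = _ := by rw [hd]; group
    rw [f1, ← (hz B).eq, mul_inv_cancel_right] at f2
    calc (d * d) * (d * d) = (d * d) * (d * d)⁻¹ := by rw [← f2]
      _ = 1 := by group
  have e6 : d * d = 1 := by rwa [e5, one_mul] at e4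
  -- conclusion
  have e7 : A * B⁻¹ = B⁻¹ * A⁻¹ * B⁻¹⁻¹ := by
    have f1 : A = B⁻¹ * A⁻¹ * B⁻¹ := by
      have : A * B * A * B = 1 := by rw [← e6, hd]; group
      calc A = (A * B * A * B) * B⁻¹ * A⁻¹ * B⁻¹ := by group
        _ = B⁻¹ * A⁻¹ * B⁻¹ := by rw [this, one_mul]
    have f2 : B⁻¹ * B⁻¹ = B := by
      have := hB.inv.sq
      rwa [inv_inv] at this
    calc A * B⁻¹ = (B⁻¹ * A⁻¹ * B⁻¹) * B⁻¹ := by rw [← f1]
      _ = B⁻¹ * A⁻¹ * (B⁻¹ * B⁻¹) := by group
      _ = B⁻¹ * A⁻¹ * B := by rw [f2]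
      _ = _ := by rw [inv_inv]
  rw [e7]
  exact hA.inv.map _ B⁻¹

end Pool.Agent.H72.Cover
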