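import Pool.Agent.H72.Cover.Good

/-!
Injectivity of `π` when the lifts of the four-groups commute.
-/

open Equiv Equiv.Perm
open scoped commutatorElement

namespace Pool.Agent.H72.Cover

set_option linter.unusedSectionVars false

variable {α : Type} [DecidableEq α] [Fintype α] {X : Type} [Group X] {π : X →* Perm α}

/-- the subgroup generated by the canonical lifts of the 3-cycles on `S` -/
def XS (π : X →* Perm α) (S : Finset α) : Subgroup X :=
  Subgroup.closure {T | Good π T ∧ ∀ x ∉ S, π T x = x}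

theorem mem_XS {S : Finset α} {a : α} {W : X} (hW : Good π W) (ha : π W a = a)
    (hs : ∀ x ∉ insert a S, π W x = x) : W ∈ XS π S := by
  refine Subgroup.subset_closure ⟨hW, fun x hx => ?_⟩
  by_cases hxa : x = a
  · rw [hxa, ha]
  · exact hs x (by simp [hxa, hx])

theorem fix_mul {S : Finset α} {A B : X} (hA : ∀ x ∉ S, π A x = x) (hB : ∀ x ∉ S, π B x = x) :
    ∀ x ∉ S, π (A * B) x = x := by
  intro x hx
  rw [map_mul, Perm.mul_apply, hB x hx, hA x hx]

theorem fix_inv {S : Finset α} {A : X} (hA : ∀ x ∉ S, π A x = x) : ∀ x ∉ S, π A⁻¹ x = x := by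
  intro x hx
  rw [map_inv, Perm.inv_eq_iff_eq, hA x hx]

theorem fix_of_mem_XS {S : Finset α} {x : X} (hx : x ∈ XS π S) : ∀ y ∉ S, π x y = y := by
  unfold XS at hx
  induction hx using Subgroup.closure_induction with
  | mem T hT => exact hT.2
  | one => intro y _; simp
  | mul A B _ _ hA hB => exact fix_mul hA hB
  | inv A _ hA => exact fix_inv hA

theorem Cov.step (h : Cov π) (h8 : 8 ≤ Fintype.card α) (h4 : FourComm π) {S : Finset α} {a : α}
    {U T : X} (hU : Good π U) (hT : Good π T) (hUa : π U a ≠ a) (hTa : π T a ≠ a)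
    (hUs : ∀ x ∉ insert a S, π U x = x) (hTs : ∀ x ∉ insert a S, π T x = x) :
    ∃ W ∈ XS π S, ∃ V, (V = 1 ∨ (Good π V ∧ π V a ≠ a ∧ ∀ x ∉ insert a S, π V x = x)) ∧
      U * T = W * V := by
  obtain ⟨x, y, hax, hay, hxy, hπU⟩ := IsThreeCycle.eq_cyc hU.three hUa
  obtain ⟨b, c, hab, hac, hbc, hπT⟩ := IsThreeCycle.eq_cyc hT.three hTa
  have hπTi : π T⁻¹ = cyc a c b := by rw [map_inv, hπT, cyc_inv hab hac hbc]
  have hTia : π T⁻¹ a ≠ a := by rw [hπTi, cyc_fst hac hab]; exact hac.symm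
  have hπU' : π U = cyc x y a := by rw [hπU, cyc_rot hax hay hxy]
  have hyU : y ∈ insert a S := by
    by_contra hy
    have := hUs y hy
    rw [hπU, cyc_thd] at this
    exact hay this
  have hcT : c ∈ insert a S := by
    by_contra hy
    have := hTs c hy
    rw [hπT, cyc_thd] at this
    exact hac this
  by_cases hyc : y = c
  · subst hyc
    by_cases hxb : x = b
    · subst hxb
      have e := h.good_unique h8 hT hU (by rw [hπU, hπT])
      exact ⟨1, one_mem _, T⁻¹, Or.inr ⟨hT.inv, hTia, fix_inv hTs⟩, by rw [e, hT.sq, one_mul]⟩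
    · have hW : Good π (U * T⁻¹) := h.rel h8 h4 hxy hax.symm hxb hay.symm hbc.symm hab hU hT hπU'
        (by rw [hπT, ← cyc_rot hab hac hbc])
      refine ⟨U * T⁻¹, mem_XS hW ?_ (fix_mul hUs (fix_inv hTs)), T⁻¹,
        Or.inr ⟨hT.inv, hTia, fix_inv hTs⟩, ?_⟩
      · rw [map_mul, Perm.mul_apply, hπTi, cyc_fst hac hab, hπU, cyc_thd]
      · calc U * T = U * T⁻¹ * (T * T) := by group
          _ = U * T⁻¹ * T⁻¹ := by rw [hT.sq]
  · by_cases hyb : y = b
    · subst hyb
      by_cases hxc : x = c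
      · subst hxc
        have e := h.good_unique h8 hT.inv hU (by rw [hπU, hπTi])
        exact ⟨1, one_mem _, 1, Or.inl rfl, by rw [e]; group⟩
      · have hW : Good π (U * T⁻¹⁻¹) := h.rel h8 h4 hxy hax.symm hxc hay.symm hyc hac hU hT.inv hπU'
          (by rw [hπTi, ← cyc_rot hac hab hbc.symm])
        rw [inv_inv] at hW
        refine ⟨U * T, mem_XS hW ?_ (fix_mul hUs hTs), 1, Or.inl rfl, by rw [mul_one]⟩
        rw [map_mul, Perm.mul_apply, hπT, cyc_fst hay hac, hπU, cyc_thd]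
    · have hcy : c ≠ y := fun e => hyc e.symm
      obtain ⟨U', hU', hπV⟩ := h.good_exists h8 (isThreeCycle_cyc hac hay hcy)
      have hU's : ∀ z ∉ insert a S, π U' z = z := by
        intro z hz
        rw [hπV]
        apply cyc_other
        · rintro rfl; exact hz (Finset.mem_insert_self _ _)
        · rintro rfl; exact hz hcT
        · rintro rfl; exact hz hyU
      have hV : Good π (U' * T⁻¹⁻¹) := h.rel h8 h4 (i := y) (j := b) (p := a) (q := c)
        hay.symm hcy.symm hyb hac hab hbc.symm hU' hT.inv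
        (by rw [hπV, cyc_rot hay.symm hcy.symm hac])
        (by rw [hπTi, cyc_rot hab.symm hbc hac])
      rw [inv_inv] at hV
      have hVa : π (U' * T) a ≠ a := by
        rw [map_mul, Perm.mul_apply, hπT, cyc_fst hab hac, hπV,
          cyc_other hab.symm hbc (Ne.symm hyb)]
        exact hab.symm
      by_cases hxc : x = c
      · subst hxc
        have e := h.good_unique h8 hU' hU (by rw [hπU, hπV])
        exact ⟨1, one_mem _, U' * T, Or.inr ⟨hV, hVa, fix_mul hU's hTs⟩, by rw [e, one_mul]⟩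
      · have hW : Good π (U * U'⁻¹) := h.rel h8 h4 (i := x) (j := c) (p := y) (q := a)
          hxy hax.symm hxc hay.symm hcy.symm hac hU hU' hπU'
          (by rw [hπV, ← cyc_rot hac hay hcy])
        refine ⟨U * U'⁻¹, mem_XS hW ?_ (fix_mul hUs (fix_inv hU's)), U' * T,
          Or.inr ⟨hV, hVa, fix_mul hU's hTs⟩, by group⟩
        rw [map_mul, Perm.mul_apply, map_inv, hπV, cyc_inv hac hay hcy, cyc_fst hay hac, hπU,
          cyc_thd]

theorem Cov.XS_insert (h : Cov π) (h8 : 8 ≤ Fintype.card α) (h4 : FourComm π) {S : Finset α}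
    {a : α} {x : X} (hx : x ∈ XS π (insert a S)) :
    ∃ W ∈ XS π S, ∃ V, (V = 1 ∨ (Good π V ∧ π V a ≠ a ∧ ∀ x ∉ insert a S, π V x = x)) ∧
      x = W * V := by
  have hmul : ∀ (x : X), ∀ T : X, Good π T → (∀ x ∉ insert a S, π T x = x) →
      (∃ W ∈ XS π S, ∃ V, (V = 1 ∨ (Good π V ∧ π V a ≠ a ∧ ∀ x ∉ insert a S, π V x = x)) ∧
      x = W * V) → (∃ W ∈ XS π S, ∃ V, (V = 1 ∨ (Good π V ∧ π V a ≠ a ∧
        ∀ x ∉ insert a S, π V x = x)) ∧ x * T = W * V) := by
    rintro x T hT hTs ⟨W, hW, V, hV, rfl⟩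
    rcases hV with rfl | ⟨hV, hVa, hVs⟩
    · by_cases hTa : π T a = a
      · exact ⟨W * T, mul_mem hW (mem_XS hT hTa hTs), 1, Or.inl rfl, by group⟩
      · exact ⟨W, hW, T, Or.inr ⟨hT, hTa, hTs⟩, by group⟩
    · -- `V T = (V T V⁻¹) V`
      have hU := hT.map _ V
      have hUs : ∀ x ∉ insert a S, π (V * T * V⁻¹) x = x := fix_mul (fix_mul hVs hTs) (fix_inv hVs)
      by_cases hUa : π (V * T * V⁻¹) a = a
      · exact ⟨W * (V * T * V⁻¹), mul_mem hW (mem_XS hU hUa hUs), V,
          Or.inr ⟨hV, hVa, hVs⟩, by group⟩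
      · obtain ⟨W', hW', V', hV', e⟩ := h.step h8 h4 hU hV hUa hVa hUs hVs
        refine ⟨W * W', mul_mem hW hW', V', hV', ?_⟩
        calc W * V * T = W * ((V * T * V⁻¹) * V) := by group
          _ = W * (W' * V') := by rw [e]
          _ = W * W' * V' := by group
  unfold XS at hx
  induction hx using Subgroup.closure_induction_right with
  | one => exact ⟨1, one_mem _, 1, Or.inl rfl, by group⟩
  | mul_right x _ T hT ih => exact hmul x T hT.1 hT.2 ih
  | mul_inv_cancel x _ T hT ih => exact hmul x T⁻¹ hT.1.inv (fix_inv hT.2) ih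

theorem Cov.inj_XS (h : Cov π) (h8 : 8 ≤ Fintype.card α) (h4 : FourComm π) (S : Finset α) :
    ∀ x ∈ XS π S, π x = 1 → x = 1 := by
  induction S using Finset.induction_on with
  | empty =>
    intro x hx _
    have : XS π (∅ : Finset α) = ⊥ := by
      unfold XS
      rw [eq_bot_iff, Subgroup.closure_le]
      rintro T ⟨hT, hTs⟩
      exact absurd (Perm.ext fun x => hTs x (Finset.notMem_empty x)) hT.three.ne_one
    rw [this] at hx
    exact Subgroup.mem_bot.1 hx
  | insert a S ha ih =>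
    intro x hx hx1
    obtain ⟨W, hW, V, hV, rfl⟩ := h.XS_insert h8 h4 hx
    rcases hV with rfl | ⟨hV, hVa, hVs⟩
    · rw [mul_one] at hx1 ⊢
      exact ih W hW hx1
    · exfalso
      have h1 : π W (π V a) = a := by
        rw [← Perm.mul_apply, ← map_mul, hx1, Perm.one_apply]
      have h2 := fix_of_mem_XS hW a ha
      exact hVa ((π W).injective (h1.trans h2.symm))

/-- **Splitting.** If the lifts of the four-groups commute, the cover is trivial. -/
theorem Cov.injective (h : Cov π) (h8 : 8 ≤ Fintype.card α) (h4 : FourComm π) :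
    Function.Injective π := by
  have htop : XS π (Finset.univ : Finset α) = ⊤ := by
    have hr : (XS π (Finset.univ : Finset α)).map π = alternatingGroup α := by
      rw [← closure_three_cycles_eq_alternating, XS, MonoidHom.map_closure]
      congr 1
      ext t
      constructor
      · rintro ⟨T, hT, rfl⟩
        exact hT.1.three
      · intro ht
        obtain ⟨T, hT, rfl⟩ := h.good_exists h8 (Set.mem_ofPred_eq ▸ ht)
        exact ⟨T, ⟨hT, fun x hx => absurd (Finset.mem_univ x) hx⟩, rfl⟩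
    have hl : ∀ x : X, ∃ y ∈ XS π (Finset.univ : Finset α), π y = π x := by
      intro x
      have : π x ∈ (XS π (Finset.univ : Finset α)).map π := by
        rw [hr]; exact mem_alternatingGroup.2 (h.sign_eq x)
      exact this
    rw [eq_top_iff, ← h.perf, commutator_eq_closure, Subgroup.closure_le]
    rintro _ ⟨x, y, rfl⟩
    obtain ⟨x', hx', hxx⟩ := hl x
    obtain ⟨y', hy', hyy⟩ := hl y
    obtain ⟨z, -, hz, rfl⟩ := h.eq_mul hxx.symm
    obtain ⟨w, -, hw, rfl⟩ := h.eq_mul hyy.symm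
    have : ⁅x' * z, y' * w⁆ = x' * y' * x'⁻¹ * y'⁻¹ := by
      rw [commutatorElement_def]
      calc x' * z * (y' * w) * (x' * z)⁻¹ * (y' * w)⁻¹
          = x' * (z * y') * w * z⁻¹ * x'⁻¹ * w⁻¹ * y'⁻¹ := by group
        _ = x' * (y' * z) * w * z⁻¹ * x'⁻¹ * w⁻¹ * y'⁻¹ := by rw [(hz y').eq]
        _ = x' * y' * (z * w) * z⁻¹ * x'⁻¹ * w⁻¹ * y'⁻¹ := by group
        _ = x' * y' * (w * z) * z⁻¹ * x'⁻¹ * w⁻¹ * y'⁻¹ := by rw [(hz w).eq]
        _ = x' * y' * (w * x'⁻¹) * w⁻¹ * y'⁻¹ := by group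
        _ = x' * y' * (x'⁻¹ * w) * w⁻¹ * y'⁻¹ := by rw [(hw x'⁻¹).eq]
        _ = _ := by group
    rw [this]
    exact mul_mem (mul_mem (mul_mem hx' hy') (inv_mem hx')) (inv_mem hy')
  rw [injective_iff_map_eq_one]
  intro x hx
  exact h.inj_XS h8 h4 Finset.univ x (by rw [htop]; trivial) hx

end Pool.Agent.H72.Cover
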