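import Mathlib

/-!
Perfect central extensions of alternating groups: canonical lifts of 3-cycles.
-/

open Equiv Equiv.Perm

namespace Pool.Agent.H72.Cover

variable {α : Type} [DecidableEq α]

/-- the 3-cycle `a → b → c → a` -/
def cyc (a b c : α) : Perm α := swap a b * swap b c

theorem cyc_fst {a b c : α} (hab : a ≠ b) (hac : a ≠ c) : cyc a b c a = b := by
  simp [cyc, swap_apply_of_ne_of_ne hab hac]

theorem cyc_snd {a b c : α} (hac : a ≠ c) (hbc : b ≠ c) : cyc a b c b = c := by
  simp [cyc, swap_apply_of_ne_of_ne hac.symm hbc.symm]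

theorem cyc_thd {a b c : α} : cyc a b c c = a := by
  simp [cyc]

theorem cyc_other {a b c x : α} (ha : x ≠ a) (hb : x ≠ b) (hc : x ≠ c) : cyc a b c x = x := by
  simp [cyc, swap_apply_of_ne_of_ne hb hc, swap_apply_of_ne_of_ne ha hb]

theorem conj_swap (g : Perm α) (a b : α) : g * swap a b * g⁻¹ = swap (g a) (g b) :=
  (swap_apply_apply g a b).symm

theorem cyc_conj (g : Perm α) (a b c : α) : g * cyc a b c * g⁻¹ = cyc (g a) (g b) (g c) := by
  unfold cyc
  rw [← conj_swap g a b, ← conj_swap g b c]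
  group

theorem cyc_rot {a b c : α} (hab : a ≠ b) (hac : a ≠ c) (hbc : b ≠ c) :
    cyc b c a = cyc a b c := by
  ext x
  by_cases hx : x = a
  · subst hx; rw [cyc_thd, cyc_fst hab hac]
  by_cases hx2 : x = b
  · subst hx2; rw [cyc_fst hbc hab.symm, cyc_snd hac hbc]
  by_cases hx3 : x = c
  · subst hx3; rw [cyc_snd hab.symm hac.symm, cyc_thd]
  rw [cyc_other hx2 hx3 hx, cyc_other hx hx2 hx3]

theorem cyc_inv {a b c : α} (hab : a ≠ b) (hac : a ≠ c) (hbc : b ≠ c) :
    (cyc a b c)⁻¹ = cyc a c b := by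
  rw [inv_eq_iff_mul_eq_one]
  ext x
  rw [Perm.mul_apply, Perm.one_apply]
  by_cases hx : x = a
  · subst hx; rw [cyc_fst hac hab, cyc_thd]
  by_cases hx2 : x = b
  · subst hx2; rw [cyc_thd, cyc_fst hab hac]
  by_cases hx3 : x = c
  · subst hx3; rw [cyc_snd hab hbc.symm, cyc_snd hac hbc]
  rw [cyc_other hx hx3 hx2, cyc_other hx hx2 hx3]

theorem swap_mul_swap_eq {i p q j : α} (hip : i ≠ p) (hiq : i ≠ q) (hij : i ≠ j) (hpq : p ≠ q)
    (hpj : p ≠ j) (hqj : q ≠ j) : cyc i p q * cyc j p q = swap i p * swap q j := by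
  ext x
  rw [Perm.mul_apply, Perm.mul_apply]
  by_cases hx : x = i
  · subst hx
    rw [cyc_other hij hip hiq, cyc_fst hip hiq, swap_apply_of_ne_of_ne hiq hij, swap_apply_left]
  by_cases hx2 : x = p
  · subst hx2
    rw [cyc_snd hqj.symm hpq, cyc_thd, swap_apply_of_ne_of_ne hpq hpj, swap_apply_right]
  by_cases hx3 : x = q
  · subst hx3
    rw [cyc_thd, cyc_other hij.symm hpj.symm hqj.symm, swap_apply_left,
      swap_apply_of_ne_of_ne hij.symm hpj.symm]
  by_cases hx4 : x = j
  · subst hx4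
    rw [cyc_fst hpj.symm hqj.symm, cyc_snd hiq hpq, swap_apply_right,
      swap_apply_of_ne_of_ne hiq.symm hpq.symm]
  rw [cyc_other hx4 hx2 hx3, cyc_other hx hx2 hx3, swap_apply_of_ne_of_ne hx3 hx4,
    swap_apply_of_ne_of_ne hx hx2]

variable [Fintype α]

theorem isThreeCycle_cyc {a b c : α} (hab : a ≠ b) (hac : a ≠ c) (hbc : b ≠ c) :
    IsThreeCycle (cyc a b c) := by
  unfold cyc
  rw [swap_comm a b]
  exact isThreeCycle_swap_mul_swap_same hab.symm hbc hac

theorem IsThreeCycle.eq_cyc {σ : Perm α} (h : IsThreeCycle σ) {a : α} (ha : σ a ≠ a) :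
    ∃ b c, a ≠ b ∧ a ≠ c ∧ b ≠ c ∧ σ = cyc a b c := by
  have hs := mem_support.2 ha
  have h1 := h.eq_swap_mul_swap_iff_mem_support.2 hs
  have h2 := h.nodup_iff_mem_support.2 hs
  simp only [List.nodup_cons, List.mem_cons, List.not_mem_nil, or_false, not_or,
    List.nodup_nil, not_false_eq_true, and_true] at h2
  exact ⟨σ a, σ (σ a), h2.1.1, h2.1.2, h2.2, h1⟩

variable {X : Type} [Group X] (π : X →* Perm α)

/-- the data of a perfect central extension of the alternating group -/
structure Cov : Prop where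
  range : π.range = alternatingGroup α
  ker : ∀ z, π z = 1 → ∀ x, Commute z x
  perf : commutator X = ⊤

variable {π}

theorem Cov.lift (h : Cov π) {g : Perm α} (hg : sign g = 1) : ∃ x, π x = g := by
  have : g ∈ π.range := by rw [h.range]; exact mem_alternatingGroup.2 hg
  exact this

theorem Cov.sign_eq (h : Cov π) (x : X) : sign (π x) = 1 := by
  have : π x ∈ π.range := ⟨x, rfl⟩
  rw [h.range] at this
  exact mem_alternatingGroup.1 this

/-- a lift differs from another one by a central element -/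
theorem Cov.eq_mul (h : Cov π) {x y : X} (hxy : π x = π y) :
    ∃ z, π z = 1 ∧ (∀ g, Commute z g) ∧ x = y * z :=
  ⟨y⁻¹ * x, by rw [map_mul, map_inv, hxy, inv_mul_cancel],
    h.ker _ (by rw [map_mul, map_inv, hxy, inv_mul_cancel]), by group⟩

/-- An element commutes with commutators of elements with which its image commutes. -/
theorem Cov.commute_commutator (h : Cov π) {T y p q : X} (hy : π y = π (p * q * p⁻¹ * q⁻¹))
    (hp : Commute (π T) (π p)) (hq : Commute (π T) (π q)) : Commute T y := by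
  obtain ⟨z, -, hz, rfl⟩ := h.eq_mul hy
  obtain ⟨z1, -, hz1, h1⟩ := h.eq_mul (x := T * p * T⁻¹) (y := p) (by
    rw [map_mul, map_mul, map_inv, hp.eq, mul_inv_cancel_right])
  obtain ⟨z2, -, hz2, h2⟩ := h.eq_mul (x := T * q * T⁻¹) (y := q) (by
    rw [map_mul, map_mul, map_inv, hq.eq, mul_inv_cancel_right])
  refine Commute.mul_right ?_ (hz T).symm
  have h3 : T * (p * q * p⁻¹ * q⁻¹) * T⁻¹ = p * q * p⁻¹ * q⁻¹ := by
    calc T * (p * q * p⁻¹ * q⁻¹) * T⁻¹
        = (T * p * T⁻¹) * (T * q * T⁻¹) * (T * p * T⁻¹)⁻¹ * (T * q * T⁻¹)⁻¹ := by group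
      _ = (p * z1) * (q * z2) * (p * z1)⁻¹ * (q * z2)⁻¹ := by rw [h1, h2]
      _ = p * (z1 * q) * z2 * z1⁻¹ * p⁻¹ * z2⁻¹ * q⁻¹ := by group
      _ = p * (q * z1) * z2 * z1⁻¹ * p⁻¹ * z2⁻¹ * q⁻¹ := by rw [(hz1 q).eq]
      _ = p * q * (z1 * z2) * z1⁻¹ * p⁻¹ * z2⁻¹ * q⁻¹ := by group
      _ = p * q * (z2 * z1) * z1⁻¹ * p⁻¹ * z2⁻¹ * q⁻¹ := by rw [(hz1 z2).eq]
      _ = p * q * (z2 * p⁻¹) * z2⁻¹ * q⁻¹ := by group
      _ = p * q * (p⁻¹ * z2) * z2⁻¹ * q⁻¹ := by rw [(hz2 p⁻¹).eq]
      _ = p * q * p⁻¹ * q⁻¹ := by group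
  exact mul_inv_eq_iff_eq_mul.1 h3

/-- An element commutes with all lifts of even permutations moving only points fixed by it. -/
theorem Cov.commute_subtype (h : Cov π) (T : X) (s : Finset α) (hs : 5 ≤ s.card)
    (hT : ∀ x ∈ s, π T x = x) (w : alternatingGroup s) (x : X)
    (hx : π x = ((alternatingGroup.ofSubtype s w : alternatingGroup α) : Perm α)) :
    Commute T x := by
  have hcom : ∀ v : alternatingGroup s,
      Commute (π T) ((alternatingGroup.ofSubtype s v : alternatingGroup α) : Perm α) := by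
    intro v
    rw [alternatingGroup.coe_ofSubtype]
    apply Disjoint.commute
    intro y
    by_cases hy : y ∈ s
    · exact Or.inl (hT y hy)
    · exact Or.inr (ofSubtype_apply_of_not_mem _ hy)
  have hcard : 5 ≤ Nat.card s := by simpa using hs
  have htop := commutator_alternatingGroup_eq_top (α := s) hcard
  have hw : w ∈ commutator (alternatingGroup s) := by rw [htop]; trivial
  rw [commutator_eq_closure] at hw
  revert x
  induction hw using Subgroup.closure_induction with
  | mem g hg =>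
    intro x hx
    obtain ⟨u, v, rfl⟩ := hg
    obtain ⟨p, hp⟩ := h.lift (g := ((alternatingGroup.ofSubtype s u : alternatingGroup α) : Perm α))
      (mem_alternatingGroup.1 (alternatingGroup.ofSubtype s u).2)
    obtain ⟨q, hq⟩ := h.lift (g := ((alternatingGroup.ofSubtype s v : alternatingGroup α) : Perm α))
      (mem_alternatingGroup.1 (alternatingGroup.ofSubtype s v).2)
    refine h.commute_commutator (p := p) (q := q) ?_ ?_ ?_
    · rw [hx, commutatorElement_def]
      simp only [map_mul, map_inv, Subgroup.coe_mul, Subgroup.coe_inv, hp, hq]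
    · rw [hp]; exact hcom u
    · rw [hq]; exact hcom v
  | one =>
    intro x hx
    rw [map_one] at hx
    exact (h.ker x hx T).symm
  | mul u v _ _ hu hv =>
    intro x hx
    obtain ⟨p, hp⟩ := h.lift (g := ((alternatingGroup.ofSubtype s u : alternatingGroup α) : Perm α))
      (mem_alternatingGroup.1 (alternatingGroup.ofSubtype s u).2)
    have h1 := hu p hp
    have h2 := hv (p⁻¹ * x) (by rw [map_mul, map_inv, hp, hx]; simp)
    have := h1.mul_right h2
    rwa [mul_inv_cancel_left] at this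
  | inv u _ hu =>
    intro x hx
    have h1 := hu x⁻¹ (by rw [map_inv, hx]; simp)
    have := h1.inv_right
    rwa [inv_inv] at this

/-- `n ≥ 8`: everything that commutes with a lift of a 3-cycle modulo the centre commutes with it. -/
theorem Cov.commute_of_three (h : Cov π) (h8 : 8 ≤ Fintype.card α) {T g : X}
    (hT : IsThreeCycle (π T)) (hg : Commute (π g) (π T)) : Commute g T := by
  obtain ⟨a, ha⟩ : ∃ a, π T a ≠ a := by
    by_contra hcon
    push Not at hcon
    exact hT.ne_one (Perm.ext hcon)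
  obtain ⟨b, c, hab, hac, hbc, hcyc⟩ := IsThreeCycle.eq_cyc hT ha
  have hcg : cyc (π g a) (π g b) (π g c) = cyc a b c := by
    rw [← cyc_conj, ← hcyc, hg.eq, mul_inv_cancel_right]
  have hgab : π g a ≠ π g b := fun e => hab ((π g).injective e)
  have hgac : π g a ≠ π g c := fun e => hac ((π g).injective e)
  have hgbc : π g b ≠ π g c := fun e => hbc ((π g).injective e)
  have hga : π g a = a ∨ π g a = b ∨ π g a = c := by
    by_contra hcon
    push Not at hcon
    have h1 := cyc_other (a := a) (b := b) (c := c) hcon.1 hcon.2.1 hcon.2.2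
    rw [← hcg, cyc_fst hgab hgac] at h1
    exact hgab h1.symm
  -- a power of `T` agrees with `g` on the three points
  have hkey : ∃ k : ℕ, π g a = (π (T ^ k)) a ∧ π g b = (π (T ^ k)) b ∧ π g c = (π (T ^ k)) c := by
    have e1 : π g b = cyc a b c (π g a) := by rw [← hcg, cyc_fst hgab hgac]
    have e2 : π g c = cyc a b c (π g b) := by rw [← hcg, cyc_snd hgac hgbc]
    rcases hga with h1 | h1 | h1
    · refine ⟨0, ?_⟩
      rw [h1, cyc_fst hab hac] at e1
      rw [e1, cyc_snd hac hbc] at e2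
      simp [h1, e1, e2]
    · refine ⟨1, ?_⟩
      rw [h1, cyc_snd hac hbc] at e1
      rw [e1, cyc_thd] at e2
      rw [pow_one, hcyc, cyc_fst hab hac, cyc_snd hac hbc, cyc_thd]
      exact ⟨h1, e1, e2⟩
    · refine ⟨2, ?_⟩
      rw [h1, cyc_thd] at e1
      rw [e1, cyc_fst hab hac] at e2
      rw [pow_two, map_mul, hcyc, Perm.mul_apply, Perm.mul_apply, Perm.mul_apply,
        cyc_fst hab hac, cyc_snd hac hbc, cyc_thd, cyc_fst hab hac]
      exact ⟨h1, e1, e2⟩
  obtain ⟨k, ka, kb, kc⟩ := hkey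
  -- the remaining factor moves only other points
  set s : Finset α := Finset.univ \ {a, b, c} with hs
  have hcard : 5 ≤ s.card := by
    rw [hs, Finset.card_univ_sdiff]
    have : ({a, b, c} : Finset α).card ≤ 3 := Finset.card_le_three
    omega
  have hfix : ∀ x, x ∉ s → π ((T ^ k)⁻¹ * g) x = x := by
    intro x hx
    have hx' : x = a ∨ x = b ∨ x = c := by
      have h0 := hx
      simp only [hs, Finset.mem_sdiff, Finset.mem_univ, true_and, not_not,
        Finset.mem_insert, Finset.mem_singleton] at h0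
      exact h0
    rw [map_mul, map_inv, Perm.mul_apply, Perm.inv_eq_iff_eq]
    rcases hx' with rfl | rfl | rfl
    · exact ka
    · exact kb
    · exact kc
  have hsig := h.sign_eq ((T ^ k)⁻¹ * g)
  have hmem : (⟨π ((T ^ k)⁻¹ * g), mem_alternatingGroup.2 hsig⟩ : alternatingGroup α)
      ∈ (alternatingGroup.ofSubtype s).range := by
    rw [alternatingGroup.mem_range_ofSubtype_iff]
    intro x hx
    by_contra hxs
    exact (mem_support.1 hx) (hfix x hxs)
  obtain ⟨w, hw⟩ := hmem
  have h1 : Commute T ((T ^ k)⁻¹ * g) := by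
    refine h.commute_subtype T s hcard ?_ w _ ?_
    · intro x hx
      rw [hcyc]
      have hx' : ¬ x = a ∧ ¬ x = b ∧ ¬ x = c := by simpa [hs] using hx
      exact cyc_other hx'.1 hx'.2.1 hx'.2.2
    · rw [hw]
  have h2 : Commute T (T ^ k) := Commute.pow_right (Commute.refl T) k
  have h3 := h2.mul_right h1
  rw [mul_inv_cancel_left] at h3
  exact h3.symm

end Pool.Agent.H72.Cover
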